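import Pool.Agent.HP778.QS.Almost
import Pool.Agent.R19.QS.Eight

/-! The elements which are not slots of a quaternion: a counting inequality. -/

set_option autoImplicit false

namespace Pool.Agent.U863.NS

open Pool.Agent.H315R3.ETC Pool.Agent.TH673.VG Pool.Agent.HP778.QS Finset

variable {S : QData} (h : IsQuat S)

/-- the elements which are not slots of `t` -/
def NonSlots (S : QData) (t : S.Q) : Set S.G := {a | ∀ b, S.q a b ≠ t}

section cnt

variable [Fintype S.G]

open Classical in
/-- `|V(a) ∩ V(c)|` -/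
noncomputable def nn (h : IsQuat S) (c a : S.G) : ℕ :=
  (univ.filter fun x => x ∈ D h c ∧ x ∈ D h a).card

open Classical in
/-- `|V(a)|` -/
noncomputable def vv (h : IsQuat S) (a : S.G) : ℕ := (univ.filter fun x => x ∈ D h a).card

open Classical in
/-- the `x ∈ V(c)` with `q(a,x) = t` -/
noncomputable def pp (h : IsQuat S) (t : S.Q) (c a : S.G) : ℕ :=
  (univ.filter fun x => x ∈ D h c ∧ S.q a x = t).card

lemma vv_eq (a : S.G) : vv h a = Nat.card (D h a) := by
  classical
  rw [vv, Nat.card_eq_fintype_card, Fintype.card_subtype]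

lemma nn_eq (c a : S.G) : nn h c a = Nat.card (D h c ⊓ D h a : Subgroup S.G) := by
  classical
  rw [nn, Nat.card_eq_fintype_card, Fintype.card_subtype]
  congr 1
  ext x
  simp only [mem_filter, mem_univ, true_and, Subgroup.mem_inf]

/-- the fibres of `q(a, ·)` over `t` inside `V(c)` -/
lemma pp_eq {t : S.Q} (c a : S.G) (h1 : a ∉ NonSlots S t) (h2 : a * c ∉ NonSlots S t) :
    pp h t c a = nn h c a := by
  classical
  simp only [NonSlots, Set.mem_ofPred_eq, not_forall, not_not] at h1 h2
  obtain ⟨b, hb⟩ := h1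
  obtain ⟨d, hd⟩ := h2
  obtain ⟨y, hy1, hy2⟩ := link h (hb.trans hd.symm)
  have hac : a * (a * c) = c := by rw [← mul_assoc, h.exp2, one_mul]
  rw [hac] at hy2
  have hy : S.q a y = t := hy1.symm.trans hb
  rw [pp, nn]
  apply Finset.card_bij' (fun x _ => y * x) (fun x _ => y * x)
  · intro x hx
    rw [mem_filter] at hx ⊢
    refine ⟨mem_univ _, (D h c).mul_mem hy2 hx.2.1, ?_⟩
    rw [mem_D, ← h.qs3, hy, hx.2.2]
  · intro x hx
    rw [mem_filter] at hx ⊢
    refine ⟨mem_univ _, (D h c).mul_mem hy2 hx.2.1, ?_⟩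
    rw [mul_comm, q_shift h _ hx.2.2, hy]
  · intro x _
    show y * (y * x) = x
    rw [← mul_assoc, h.exp2, one_mul]
  · intro x _
    show y * (y * x) = x
    rw [← mul_assoc, h.exp2, one_mul]

lemma pp_zero {t : S.Q} (c a : S.G) (h1 : a ∈ NonSlots S t ∨ a * c ∈ NonSlots S t) :
    pp h t c a = 0 := by
  classical
  rw [pp, card_eq_zero, filter_eq_empty_iff]
  rintro x _ ⟨hx1, hx2⟩
  rcases h1 with h1 | h1
  · exact h1 x hx2
  · apply h1 x
    rw [← hx2, q_eq_iff h]
    have : a * c * a = c := by rw [mul_comm a c, mul_cancel h]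
    rwa [this]

open Classical in
/-- the number of `a` with `q(a,x) = t` -/
lemma fib_eq {t : S.Q} (x : S.G) :
    (univ.filter fun a => S.q a x = t).card = if x ∈ NonSlots S t then 0 else vv h x := by
  split_ifs with hx
  · rw [card_eq_zero, filter_eq_empty_iff]
    intro a _ ha
    exact hx a (by rw [h.qs2]; exact ha)
  · simp only [NonSlots, Set.mem_ofPred_eq, not_forall, not_not] at hx
    obtain ⟨b, hb⟩ := hx
    rw [vv]
    apply Finset.card_bij' (fun a _ => b * a) (fun a _ => b * a)
    · intro a ha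
      rw [mem_filter] at ha ⊢
      refine ⟨mem_univ _, ?_⟩
      rw [mem_D, ← h.qs3, hb, h.qs2, ha.2]
    · intro a ha
      rw [mem_filter] at ha ⊢
      refine ⟨mem_univ _, ?_⟩
      rw [h.qs2, mul_comm, q_shift h _ ha.2, hb]
    · intro a _
      show b * (b * a) = a
      rw [← mul_assoc, h.exp2, one_mul]
    · intro a _
      show b * (b * a) = a
      rw [← mul_assoc, h.exp2, one_mul]

open Classical in
lemma sum_nn (c : S.G) : ∑ a, nn h c a = ∑ x, if x ∈ D h c then vv h x else 0 := by
  have e1 : ∀ a, nn h c a = ∑ x, if x ∈ D h c ∧ x ∈ D h a then 1 else 0 := by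
    intro a
    rw [nn, card_filter]
  simp only [e1]
  rw [sum_comm]
  refine sum_congr rfl fun x _ => ?_
  split_ifs with hx
  · rw [vv, card_filter]
    refine sum_congr rfl fun a _ => ?_
    by_cases ha : x ∈ D h a
    · rw [if_pos ⟨hx, ha⟩, if_pos (mem_comm h ha)]
    · rw [if_neg fun e => ha e.2, if_neg fun e => ha (mem_comm h e)]
  · exact sum_eq_zero fun a _ => if_neg fun e => hx e.1

open Classical in
lemma sum_pp {t : S.Q} (c : S.G) :
    ∑ a, pp h t c a = ∑ x, if x ∈ D h c ∧ x ∉ NonSlots S t then vv h x else 0 := by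
  have e1 : ∀ a, pp h t c a = ∑ x, if x ∈ D h c ∧ S.q a x = t then 1 else 0 := by
    intro a
    rw [pp, card_filter]
  simp only [e1]
  rw [sum_comm]
  refine sum_congr rfl fun x _ => ?_
  by_cases hx : x ∈ D h c
  · have e2 : (∑ a, if x ∈ D h c ∧ S.q a x = t then 1 else 0) =
        (univ.filter fun a => S.q a x = t).card := by
      rw [card_filter]
      refine sum_congr rfl fun a _ => ?_
      by_cases ha : S.q a x = t
      · rw [if_pos ⟨hx, ha⟩, if_pos ha]
      · rw [if_neg fun e => ha e.2, if_neg ha]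
    rw [e2, fib_eq h]
    by_cases hxB : x ∈ NonSlots S t
    · rw [if_pos hxB, if_neg fun e => e.2 hxB]
    · rw [if_neg hxB, if_pos ⟨hx, hxB⟩]
  · rw [if_neg fun e => hx e.1]
    exact sum_eq_zero fun a _ => if_neg fun e => hx e.1

open Classical in
/-- the identity behind the inequalities -/
theorem identity {t : S.Q} (c : S.G) :
    (∑ a, if a ∈ NonSlots S t ∨ a * c ∈ NonSlots S t then nn h c a else 0) =
      ∑ x, if x ∈ D h c ∧ x ∈ NonSlots S t then vv h x else 0 := by
  have e1 : ∑ a, nn h c a = ∑ a, pp h t c a +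
      ∑ a, if a ∈ NonSlots S t ∨ a * c ∈ NonSlots S t then nn h c a else 0 := by
    rw [← sum_add_distrib]
    refine sum_congr rfl fun a _ => ?_
    by_cases ha : a ∈ NonSlots S t ∨ a * c ∈ NonSlots S t
    · rw [if_pos ha, pp_zero h c a ha, zero_add]
    · rw [if_neg ha, add_zero]
      push Not at ha
      exact (pp_eq h c a ha.1 ha.2).symm
  have e2 : (∑ x, if x ∈ D h c then vv h x else 0) =
      (∑ x, if x ∈ D h c ∧ x ∉ NonSlots S t then vv h x else 0) +
      ∑ x, if x ∈ D h c ∧ x ∈ NonSlots S t then vv h x else 0 := by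
    rw [← sum_add_distrib]
    refine sum_congr rfl fun x _ => ?_
    by_cases hx : x ∈ D h c
    · by_cases hxB : x ∈ NonSlots S t
      · rw [if_pos hx, if_neg fun e => e.2 hxB, if_pos ⟨hx, hxB⟩, zero_add]
      · rw [if_pos hx, if_pos ⟨hx, hxB⟩, if_neg fun e => hxB e.2, add_zero]
    · rw [if_neg hx, if_neg fun e => hx e.1, if_neg fun e => hx e.1]
  have e3 := sum_nn h c
  rw [e1, e2, sum_pp h (t := t) c] at e3
  exact Nat.add_left_cancel e3

lemma nn_mul (c a : S.G) : nn h c (a * c) = nn h c a := by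
  classical
  rw [nn, nn]
  congr 1
  ext x
  simp only [mem_filter, mem_univ, true_and, and_congr_right_iff]
  intro hx
  constructor
  · intro h1
    have := D_inf h _ _ h1 hx
    rwa [mul_cancel h] at this
  · intro h1
    exact D_inf h _ _ h1 hx

lemma nn_le (c a : S.G) : nn h c a ≤ vv h c := by
  classical
  rw [nn, vv]
  refine card_le_card fun x hx => ?_
  rw [mem_filter] at hx ⊢
  exact ⟨mem_univ _, hx.2.1⟩

lemma vv_one : vv h 1 = Nat.card S.G := by
  rw [vv_eq]
  have : D h (1 : S.G) = ⊤ := by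
    rw [eq_top_iff]
    intro x _
    rw [mem_D, h.qs2, q_one h]
  rw [this, Subgroup.card_top]

include h in
omit [Fintype S.G] in
lemma one_nonSlot {t : S.Q} (ht : t ≠ S.zero) : (1 : S.G) ∈ NonSlots S t := by
  intro b hb
  apply ht
  rw [← hb, h.qs2, q_one h]

open Classical in
/-- the left-hand side is at most twice the sum over the non-slots -/
lemma lhs_le {t : S.Q} (c : S.G) :
    (∑ a, if a ∈ NonSlots S t ∨ a * c ∈ NonSlots S t then nn h c a else 0) ≤
      2 * ∑ a, if a ∈ NonSlots S t then nn h c a else 0 := by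
  have e1 : (∑ a, if a * c ∈ NonSlots S t then nn h c a else 0) =
      ∑ a, if a ∈ NonSlots S t then nn h c a else 0 := by
    rw [← Equiv.sum_comp (Equiv.mulRight c) fun a => if a ∈ NonSlots S t then nn h c a else 0]
    refine sum_congr rfl fun a _ => ?_
    rw [Equiv.coe_mulRight, nn_mul]
  rw [two_mul]
  nth_rw 2 [← e1]
  rw [← sum_add_distrib]
  refine sum_le_sum fun a _ => ?_
  split_ifs with h1 h2 h3 <;> first | omega | (rcases h1 with h1 | h1 <;> contradiction)

open Classical in
lemma ncard_eq {t : S.Q} : (NonSlots S t).ncard = ∑ a : S.G, if a ∈ NonSlots S t then 1 else 0 := by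
  rw [← card_filter, ← Set.ncard_coe_finset]
  congr 1
  ext a
  simp

/-- the general inequality -/
theorem card_le {t : S.Q} (ht : t ≠ S.zero) (c : S.G) :
    Nat.card S.G ≤ 2 * (NonSlots S t).ncard * vv h c := by
  classical
  have e1 := lhs_le h (t := t) c
  rw [identity h] at e1
  have e2 : (if (1 : S.G) ∈ D h c ∧ (1 : S.G) ∈ NonSlots S t then vv h 1 else 0) ≤
      ∑ x, if x ∈ D h c ∧ x ∈ NonSlots S t then vv h x else 0 :=
    single_le_sum (f := fun x => if x ∈ D h c ∧ x ∈ NonSlots S t then vv h x else 0)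
      (fun _ _ => Nat.zero_le _) (mem_univ (1 : S.G))
  rw [if_pos ⟨(D h c).one_mem, one_nonSlot h ht⟩, vv_one] at e2
  refine (e2.trans e1).trans ?_
  rw [mul_assoc]
  refine Nat.mul_le_mul_left 2 ?_
  rw [ncard_eq, sum_mul]
  refine sum_le_sum fun a _ => ?_
  split_ifs
  · rw [one_mul]; exact nn_le h c a
  · exact Nat.zero_le _

open Classical in
/-- the inequality behind the estimates, with the element `1` taken out -/
lemma main_ineq {t : S.Q} (ht : t ≠ S.zero) (c : S.G) :
    Nat.card S.G +
      (∑ x ∈ univ.erase (1 : S.G), if x ∈ D h c ∧ x ∈ NonSlots S t then vv h x else 0) ≤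
      2 * vv h c + 2 * ∑ a ∈ univ.erase (1 : S.G), if a ∈ NonSlots S t then nn h c a else 0 := by
  have e1 := lhs_le h (t := t) c
  rw [identity h] at e1
  rw [← add_sum_erase _ _ (mem_univ (1 : S.G)),
    if_pos ⟨(D h c).one_mem, one_nonSlot h ht⟩, vv_one,
    ← add_sum_erase _ _ (mem_univ (1 : S.G)), if_pos (one_nonSlot h ht), mul_add] at e1
  have e4 : nn h c 1 ≤ vv h c := nn_le h c 1
  omega

open Classical in
/-- the estimate for one non-slot and the pair `c, -c` -/
lemma pair_term (c a : S.G) {w : ℕ} (h1 : vv h c = w) (h2 : vv h (S.neg * c) = w)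
    (h3 : w ≤ vv h a) :
    2 * nn h c a + 2 * nn h (S.neg * c) a ≤ 2 * w + (if a ∈ D h c then vv h a else 0) +
      if a ∈ D h (S.neg * c) then vv h a else 0 := by
  have hc : S.neg * c ∈ D h c := h.qs1 c
  have hc' : c ∈ D h (S.neg * c) := mem_comm h hc
  have key : ∀ d : S.G, vv h d = w →
      (D h d ≤ D h a ∧ nn h d a = w) ∨ 2 * nn h d a ≤ w := by
    intro d hd
    by_cases hle : D h d ≤ D h a
    · left
      refine ⟨hle, ?_⟩
      rw [nn_eq, inf_eq_left.2 hle, ← vv_eq, hd]
    · right
      have h1 : ¬ D h d ≤ D h d ⊓ D h a := fun e => hle (e.trans inf_le_right)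
      have h2 := card_half (inf_le_left : D h d ⊓ D h a ≤ D h d) h1
      rw [nn_eq, ← hd, vv_eq]
      exact h2
  rcases key c h1 with ⟨k1, k2⟩ | k1
  · have m1 : a ∈ D h (S.neg * c) := mem_comm h (k1 hc)
    rcases key _ h2 with ⟨k3, k4⟩ | k3
    · have m2 : a ∈ D h c := mem_comm h (k3 hc')
      rw [if_pos m1, if_pos m2]
      omega
    · rw [if_pos m1]
      omega
  · rcases key _ h2 with ⟨k3, k4⟩ | k3
    · have m2 : a ∈ D h c := mem_comm h (k3 hc')
      rw [if_pos m2]
      omega
    · omega

/-- at most six non-slots: there is no `c` such that `V(c)` and `V(-c)` both have the minimal order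
`|G|/8` -/
theorem no_pair {t : S.Q} (ht : t ≠ S.zero) (hB : (NonSlots S t).ncard ≤ 6) (c : S.G) {w : ℕ}
    (hG : Nat.card S.G = 8 * w) (h1 : vv h c = w) (h2 : vv h (S.neg * c) = w)
    (h3 : ∀ a : S.G, w ≤ vv h a) : False := by
  classical
  have e1 := main_ineq h ht c
  have e2 := main_ineq h ht (S.neg * c)
  have e3 : (NonSlots S t).ncard =
      1 + ∑ a ∈ univ.erase (1 : S.G), if a ∈ NonSlots S t then 1 else 0 := by
    rw [ncard_eq, ← add_sum_erase _ _ (mem_univ (1 : S.G)), if_pos (one_nonSlot h ht)]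
  have e4 : 2 * (∑ a ∈ univ.erase (1 : S.G), if a ∈ NonSlots S t then nn h c a else 0) +
      2 * (∑ a ∈ univ.erase (1 : S.G), if a ∈ NonSlots S t then nn h (S.neg * c) a else 0) ≤
      (∑ a ∈ univ.erase (1 : S.G), if a ∈ NonSlots S t then 1 else 0) * (2 * w) +
      (∑ x ∈ univ.erase (1 : S.G), if x ∈ D h c ∧ x ∈ NonSlots S t then vv h x else 0) +
      ∑ x ∈ univ.erase (1 : S.G), if x ∈ D h (S.neg * c) ∧ x ∈ NonSlots S t then vv h x else 0 := by
    rw [mul_sum, mul_sum, sum_mul, ← sum_add_distrib, ← sum_add_distrib, ← sum_add_distrib]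
    refine sum_le_sum fun a _ => ?_
    have := pair_term h c a h1 h2 (h3 a)
    by_cases hb : a ∈ NonSlots S t
    · rw [if_pos hb, if_pos hb, if_pos hb, one_mul]
      have g1 : (if a ∈ D h c ∧ a ∈ NonSlots S t then vv h a else 0) =
          if a ∈ D h c then vv h a else 0 := by
        by_cases hh : a ∈ D h c
        · rw [if_pos ⟨hh, hb⟩, if_pos hh]
        · rw [if_neg fun e => hh e.1, if_neg hh]
      have g2 : (if a ∈ D h (S.neg * c) ∧ a ∈ NonSlots S t then vv h a else 0) =
          if a ∈ D h (S.neg * c) then vv h a else 0 := by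
        by_cases hh : a ∈ D h (S.neg * c)
        · rw [if_pos ⟨hh, hb⟩, if_pos hh]
        · rw [if_neg fun e => hh e.1, if_neg hh]
      rw [g1, g2]
      exact this
    · rw [if_neg hb, if_neg hb, if_neg hb]
      omega
  have e5 : (∑ a ∈ univ.erase (1 : S.G), if a ∈ NonSlots S t then 1 else 0) * (2 * w) ≤
      5 * (2 * w) := Nat.mul_le_mul_right _ (by omega)
  have e6 : 0 < Nat.card S.G := Nat.card_pos
  rw [h1] at e1
  rw [h2] at e2
  omega

/-- a subgroup `L` of index two with `-1 ∉ L` such that all value groups of elements outside `L`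
have order `|G|/8`, and all others larger order: impossible -/
theorem no_half (L : Subgroup S.G) {w : ℕ} (hG : Nat.card S.G = 8 * w)
    (hL : ∀ x : S.G, x ∈ L ↔ S.neg * x ∉ L) (h1 : ∀ x : S.G, x ∉ L → vv h x = w)
    (h2 : ∀ x ∈ L, 2 * w ≤ vv h x) : False := by
  classical
  have hw : 0 < w := by
    have : 0 < Nat.card S.G := Nat.card_pos
    omega
  -- the elements of `V(x)` outside `L`
  have out : ∀ x ∈ L, vv h x ≤ 2 * (univ.filter fun c => c ∉ L ∧ c ∈ D h x).card := by
    intro x hx
    have hneg : S.neg * x ∈ D h x := h.qs1 x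
    have g1 : (univ.filter fun c => c ∈ L ∧ c ∈ D h x).card ≤
        (univ.filter fun c => c ∉ L ∧ c ∈ D h x).card := by
      refine card_le_card_of_injOn (fun c => (S.neg * x) * c) ?_ ?_
      · intro c hc
        rw [mem_coe, mem_filter] at hc ⊢
        refine ⟨mem_univ _, ?_, (D h x).mul_mem hneg hc.2.2⟩
        intro hcon
        exact (hL x).1 hx ((L.mul_mem_cancel_right hc.2.1).1 hcon)
      · intro a _ b _ e
        exact mul_left_cancel e
    have g2 : vv h x = (univ.filter fun c => c ∈ L ∧ c ∈ D h x).card +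
        (univ.filter fun c => c ∉ L ∧ c ∈ D h x).card := by
      rw [vv, ← card_union_of_disjoint]
      · congr 1
        ext c
        simp only [mem_filter, mem_univ, true_and, mem_union]
        tauto
      · rw [disjoint_filter]
        intro c _ hc hc'
        exact hc'.1 hc.1
    omega
  have count : ∑ x ∈ univ.filter (fun x => x ∈ L), (univ.filter fun c => c ∉ L ∧ c ∈ D h x).card =
      ∑ c ∈ univ.filter (fun c => c ∉ L), (univ.filter fun x => x ∈ L ∧ x ∈ D h c).card := by
    simp only [card_filter, sum_filter]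
    have l1 : ∀ x : S.G, (if x ∈ L then ∑ c, (if c ∉ L ∧ c ∈ D h x then 1 else 0) else 0) =
        ∑ c, if (x ∈ L ∧ c ∉ L) ∧ c ∈ D h x then 1 else 0 := by
      intro x
      by_cases hx : x ∈ L
      · rw [if_pos hx]
        refine sum_congr rfl fun c _ => ?_
        simp [hx]
      · rw [if_neg hx]
        symm
        exact sum_eq_zero fun c _ => if_neg fun e => hx e.1.1
    have l2 : ∀ c : S.G, (if c ∉ L then ∑ x, (if x ∈ L ∧ x ∈ D h c then 1 else 0) else 0) =
        ∑ x, if (x ∈ L ∧ c ∉ L) ∧ c ∈ D h x then 1 else 0 := by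
      intro c
      by_cases hc : c ∉ L
      · rw [if_pos hc]
        refine sum_congr rfl fun x _ => ?_
        by_cases hx : x ∈ D h c
        · have := mem_comm h hx
          simp [hx, hc, this]
        · have : c ∉ D h x := fun e => hx (mem_comm h e)
          simp [hx, this]
      · rw [if_neg hc]
        symm
        exact sum_eq_zero fun x _ => if_neg fun e => hc e.1.2
    rw [sum_congr rfl fun x _ => l1 x, sum_congr rfl fun c _ => l2 c]
    exact sum_comm
  have upper : ∑ c ∈ univ.filter (fun c => c ∉ L), (univ.filter fun x => x ∈ L ∧ x ∈ D h c).card ≤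
      (univ.filter (fun c => c ∉ L)).card * w := by
    refine (sum_le_card_nsmul _ _ w fun c hc => ?_).trans (by rw [smul_eq_mul])
    rw [mem_filter] at hc
    rw [← h1 c hc.2, vv]
    refine card_le_card fun x hx => ?_
    rw [mem_filter] at hx ⊢
    exact ⟨hx.1, hx.2.2⟩
  have cards : (univ.filter (fun c => c ∉ L)).card ≤ (univ.filter (fun c => c ∈ L)).card := by
    refine card_le_card_of_injOn (fun c => S.neg * c) ?_ ?_
    · intro c hc
      rw [mem_coe, mem_filter] at hc ⊢
      refine ⟨mem_univ _, ?_⟩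
      by_contra hcon
      exact hc.2 ((hL c).2 hcon)
    · intro a _ b _ e
      exact mul_left_cancel e
  have hone : (1 : S.G) ∈ univ.filter (fun x => x ∈ L) := by
    rw [mem_filter]
    exact ⟨mem_univ _, L.one_mem⟩
  have lower : ((univ.filter (fun x => x ∈ L)).card - 1) * w + 4 * w ≤
      ∑ x ∈ univ.filter (fun x => x ∈ L), (univ.filter fun c => c ∉ L ∧ c ∈ D h x).card := by
    rw [← add_sum_erase _ _ hone]
    have g1 := out 1 L.one_mem
    rw [vv_one, hG] at g1
    have g2 : ((univ.filter (fun x => x ∈ L)).card - 1) * w ≤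
        ∑ x ∈ (univ.filter (fun x => x ∈ L)).erase 1,
          (univ.filter fun c => c ∉ L ∧ c ∈ D h x).card := by
      rw [← card_erase_of_mem hone, ← smul_eq_mul]
      refine card_nsmul_le_sum _ _ w fun x hx => ?_
      rw [mem_erase, mem_filter] at hx
      have := out x hx.2.2
      have := h2 x hx.2.2
      omega
    omega
  have hpos : 0 < (univ.filter (fun x => x ∈ L)).card := card_pos.2 ⟨1, hone⟩
  have f1 : (univ.filter (fun c => c ∉ L)).card * w ≤ (univ.filter (fun c => c ∈ L)).card * w :=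
    Nat.mul_le_mul_right _ cards
  have f2 : (univ.filter (fun c => c ∈ L)).card * w =
      ((univ.filter (fun x => x ∈ L)).card - 1) * w + w := by
    obtain ⟨m, hm⟩ : ∃ m, (univ.filter (fun x => x ∈ L)).card = m + 1 :=
      ⟨_, (Nat.succ_pred_eq_of_pos hpos).symm⟩
    rw [hm]
    simp [add_mul]
  rw [count] at lower
  omega

end cnt

section fin

variable [Finite S.G]

include h in
lemma index_cases8 (A : Subgroup S.G) : A.index ≤ 8 ∨ 16 ≤ A.index := by
  obtain ⟨n, hn⟩ := (isP h).index A
  rw [hn]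
  by_cases hn2 : n ≤ 3
  · left
    calc 2 ^ n ≤ 2 ^ 3 := Nat.pow_le_pow_right (by norm_num) hn2
      _ = 8 := by norm_num
  · right
    calc 16 = 2 ^ 4 := by norm_num
      _ ≤ 2 ^ n := Nat.pow_le_pow_right (by norm_num) (by omega)

include h in
/-- at most six non-slots: all value groups have index at most eight -/
theorem index_le {t : S.Q} (ht : t ≠ S.zero) (hB : (NonSlots S t).ncard ≤ 6) (c : S.G) :
    (D h c).index ≤ 8 := by
  have := Fintype.ofFinite S.G
  rcases index_cases8 h (D h c) with h1 | h1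
  · exact h1
  exfalso
  have e1 := (D h c).card_mul_index
  have e2 : 0 < Nat.card (D h c) := Nat.card_pos
  have e3 : 16 * Nat.card (D h c) ≤ Nat.card S.G := by
    rw [← e1, mul_comm]
    exact Nat.mul_le_mul_left _ h1
  have e4 := card_le h ht c
  rw [vv_eq] at e4
  have e5 : 2 * (NonSlots S t).ncard * Nat.card (D h c) ≤ 12 * Nat.card (D h c) :=
    Nat.mul_le_mul_right _ (by omega)
  omega

include h in
/-- at most six non-slots: a subgroup which contains all `y` with `V(y)` of index at most four is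
the whole group -/
theorem gen {t : S.Q} (ht : t ≠ S.zero) (hB : (NonSlots S t).ncard ≤ 6) (L : Subgroup S.G)
    (hL : ∀ y : S.G, (D h y).index ≤ 4 → y ∈ L) (c : S.G) : c ∈ L := by
  by_contra hc
  have := Fintype.ofFinite S.G
  have h8 : ∀ x : S.G, x ∉ L → (D h x).index = 8 := by
    intro x hx
    rcases index_cases h (D h x) with h1 | h1
    · exact absurd (hL x h1) hx
    · exact le_antisymm (index_le h ht hB x) h1
  obtain ⟨w, hw⟩ : ∃ w, w = vv h c := ⟨_, rfl⟩
  have hcard : ∀ x : S.G, vv h x * (D h x).index = Nat.card S.G := by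
    intro x
    rw [vv_eq]
    exact (D h x).card_mul_index
  have hG : Nat.card S.G = 8 * w := by
    rw [← hcard c, h8 c hc, hw, mul_comm]
  have hall : ∀ a : S.G, w ≤ vv h a := by
    intro a
    have e1 := hcard a
    have e2 : vv h a * (D h a).index ≤ vv h a * 8 :=
      Nat.mul_le_mul_left _ (index_le h ht hB a)
    omega
  have hw8 : ∀ x : S.G, x ∉ L → vv h x = w := by
    intro x hx
    have e1 := hcard x
    rw [h8 x hx] at e1
    omega
  have key : ∀ x : S.G, x ∉ L → S.neg * x ∈ L ∧ 2 * w ≤ vv h (S.neg * x) := by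
    intro x hx
    rcases index_cases h (D h (S.neg * x)) with h1 | h1
    · refine ⟨hL _ h1, ?_⟩
      have e1 := hcard (S.neg * x)
      have e2 : vv h (S.neg * x) * (D h (S.neg * x)).index ≤ vv h (S.neg * x) * 4 :=
        Nat.mul_le_mul_left _ h1
      omega
    · exfalso
      have e0 : (D h (S.neg * x)).index = 8 := le_antisymm (index_le h ht hB _) h1
      have e1 := hcard (S.neg * x)
      rw [e0] at e1
      exact no_pair h ht hB x hG (hw8 x hx) (by omega) hall
  have hneg : S.neg ∉ L := by
    intro hn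
    apply hc
    have := L.mul_mem hn (key c hc).1
    rwa [← mul_assoc, h.exp2, one_mul] at this
  have hLn : ∀ x : S.G, x ∈ L ↔ S.neg * x ∉ L := by
    intro x
    constructor
    · intro hx hx'
      exact hneg ((L.mul_mem_cancel_right hx).1 hx')
    · intro hx
      have := (key _ hx).1
      rwa [← mul_assoc, h.exp2, one_mul] at this
  refine no_half h L hG hLn hw8 fun x hx => ?_
  have := (key _ ((hLn x).1 hx)).2
  rwa [← mul_assoc, h.exp2, one_mul] at this

include h in
/-- at most six non-slots -/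
theorem elem_of_few {t : S.Q} (ht : t ≠ S.zero) (hB : (NonSlots S t).ncard ≤ 6) : Elem S := by
  refine Pool.Agent.R19.QS.elem_bad h fun e f _ _ _ _ _ => ⟨index_le h ht hB e, ?_⟩
  exact gen h ht hB _ (fun y hy => Subgroup.subset_closure (Or.inl hy)) e

end fin

end Pool.Agent.U863.NS
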