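import Pool.Agent.U863.NS.Count
import Pool.Agent.TH188.ET.Struct

/-! Fields almost all of whose quadratic extensions embed in one quaternion algebra. -/

set_option autoImplicit false

namespace Pool.Agent.U863.NS

open scoped Quaternion
open Pool.Agent.H315R3.ETC Pool.Agent.TH188.ET

variable {F : Type*} [Field F]

/-- a square root of `a` in a quaternion division algebra, where `a` is not a square in `F` -/
theorem slot_of_root (h2 : (2 : F) ≠ 0) {u v a : Fˣ}
    (hD : ∀ x y : ℍ[F,(u : F),0,(v : F)], x * y = 0 → x = 0 ∨ y = 0)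
    (ha : ¬ ∃ b : Fˣ, a = b ^ 2) (x : ℍ[F,(u : F),0,(v : F)])
    (hx : x * x = algebraMap F _ (a : F)) : ∃ b : Fˣ, QIso a b u v := by
  obtain ⟨x0, p, q, r⟩ := x
  have e0 := congrArg QuaternionAlgebra.re hx
  have e1 := congrArg QuaternionAlgebra.imI hx
  have e2 := congrArg QuaternionAlgebra.imJ hx
  have e3 := congrArg QuaternionAlgebra.imK hx
  simp [QuaternionAlgebra.algebraMap_eq] at e0 e1 e2 e3
  have hx0 : x0 = 0 := by
    by_contra h0
    have f1 : p = 0 := by
      have : (2 * x0) * p = 0 := by linear_combination e1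
      exact (mul_eq_zero.1 this).resolve_left (mul_ne_zero h2 h0)
    have f2 : q = 0 := by
      have : (2 * x0) * q = 0 := by linear_combination e2
      exact (mul_eq_zero.1 this).resolve_left (mul_ne_zero h2 h0)
    have f3 : r = 0 := by
      have : (2 * x0) * r = 0 := by linear_combination e3
      exact (mul_eq_zero.1 this).resolve_left (mul_ne_zero h2 h0)
    refine ha ⟨Units.mk0 x0 h0, Units.ext ?_⟩
    rw [f1, f2, f3] at e0
    rw [Units.val_pow_eq_pow_val, Units.val_mk0]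
    linear_combination -e0
  subst hx0
  have hxa : (⟨0, p, q, r⟩ : ℍ[F,(u : F),0,(v : F)]) * ⟨0, p, q, r⟩ = (a : F) • 1 := by
    rw [hx, Algebra.algebraMap_eq_smul_one]
  by_cases hy : (⟨0, 0, -(u : F) * r, -q⟩ : ℍ[F,(u : F),0,(v : F)]) = 0
  · have g2 := congrArg QuaternionAlgebra.imJ hy
    have g3 := congrArg QuaternionAlgebra.imK hy
    simp at g2 g3
    subst g2 g3
    refine ⟨v, equiv_of_anti h2 a.ne_zero v.ne_zero ⟨0, p, 0, 0⟩ ⟨0, 0, 1, 0⟩ hxa ?_ ?_⟩
    · ext <;> simp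
    · ext <;> simp
  · set b : F := -((u : F) * v * (q ^ 2 - u * r ^ 2)) with hb
    have hyy : (⟨0, 0, -(u : F) * r, -q⟩ : ℍ[F,(u : F),0,(v : F)]) * ⟨0, 0, -(u : F) * r, -q⟩ =
        b • 1 := by
      ext <;> simp [hb] <;> ring
    have hb0 : b ≠ 0 := by
      intro h0
      rw [h0, zero_smul] at hyy
      rcases hD _ _ hyy with h | h <;> exact hy h
    refine ⟨Units.mk0 b hb0, ?_⟩
    refine equiv_of_anti h2 a.ne_zero hb0 ⟨0, p, q, r⟩ ⟨0, 0, -(u : F) * r, -q⟩ hxa hyy ?_
    ext <;> simp <;> ring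

/-- a quaternion algebra without zero divisors is not split -/
theorem not_split {u v : Fˣ}
    (hD : ∀ x y : ℍ[F,(u : F),0,(v : F)], x * y = 0 → x = 0 ∨ y = 0) : ¬ QIso u v 1 1 := by
  rintro ⟨φ⟩
  have e : (⟨1, 1, 0, 0⟩ : ℍ[F,((1 : Fˣ) : F),0,((1 : Fˣ) : F)]) * ⟨1, -1, 0, 0⟩ = 0 := by
    ext <;> simp
  have e' := congrArg φ.symm e
  rw [map_mul, map_zero] at e'
  rcases hD _ _ e' with h | h
  · have := (map_eq_zero_iff φ.symm φ.symm.injective).1 h
    have := congrArg QuaternionAlgebra.re this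
    simp at this
  · have := (map_eq_zero_iff φ.symm φ.symm.injective).1 h
    have := congrArg QuaternionAlgebra.re this
    simp at this

/-- all but five quadratic extensions embed in a quaternion division algebra -/
theorem field_few (h2 : (2 : F) ≠ 0) (hfin : FinSq F) {u v : Fˣ}
    (hD : ∀ x y : ℍ[F,(u : F),0,(v : F)], x * y = 0 → x = 0 ∨ y = 0)
    (l : Fin 5 → Fˣ)
    (hl : ∀ a : Fˣ, (∃ x : ℍ[F,(u : F),0,(v : F)], x * x = algebraMap F _ (a : F)) ∨
      ∃ (i : Fin 5) (y : Fˣ), a = l i * y ^ 2) : ∃ S : QData, Elem S ∧ IsStructureOf F S := by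
  obtain ⟨S, hS, hSfin, hSq⟩ := exists_structure h2 hfin
  obtain ⟨φ, hs, hk, hn, h0, hq⟩ := id hS
  have ht : S.q (φ u) (φ v) ≠ S.zero := by
    rw [← h0, ← map_one φ]
    intro e
    exact not_split hD ((hq u v 1 1).1 e)
  refine ⟨S, elem_of_few hSq ht ?_, hS⟩
  classical
  have hsub : NonSlots S (S.q (φ u) (φ v)) ⊆
      ((insert (1 : S.G) (Finset.univ.image fun i => φ (l i)) : Finset S.G) : Set S.G) := by
    intro g hg
    obtain ⟨a, rfl⟩ := hs g
    rw [Finset.mem_coe, Finset.mem_insert, Finset.mem_image]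
    by_cases ha : ∃ b : Fˣ, a = b ^ 2
    · exact Or.inl ((hk a).2 ha)
    right
    rcases hl a with ⟨x, hx⟩ | ⟨i, y, hy⟩
    · exfalso
      obtain ⟨b, hb⟩ := slot_of_root h2 hD ha x hx
      exact hg (φ b) ((hq a b u v).2 hb)
    · refine ⟨i, Finset.mem_univ _, ?_⟩
      rw [hy, map_mul, (hk (y ^ 2)).2 ⟨y, rfl⟩, mul_one]
  have h1 := Set.ncard_le_ncard hsub (Finset.finite_toSet _)
  rw [Set.ncard_coe_finset] at h1
  have h3 := Finset.card_insert_le (1 : S.G) (Finset.univ.image fun i => φ (l i))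
  have h4 : (Finset.univ.image fun i => φ (l i)).card ≤ 5 :=
    Finset.card_image_le.trans (by simp)
  omega

end Pool.Agent.U863.NS
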